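import Pool.Agent.Helper27.PHU.Defs

/-!
# MP_8bf717_co, PHU-10: critical chords in every direction
-/

set_option autoImplicit false

open MeasureTheory Set

namespace Pool.Agent.Helper21.PHU

open Pool.Agent.Helper27.PHU Pool.Agent.Helper37.PH Pool.Agent.Helper61.PH

/-- `dt v` as a linear map -/
noncomputable def dl (v : ℝ × ℝ) : (ℝ × ℝ) →ₗ[ℝ] ℝ :=
  v.1 • LinearMap.fst ℝ ℝ ℝ + v.2 • LinearMap.snd ℝ ℝ ℝ

theorem dl_apply (v q : ℝ × ℝ) : dl v q = dt v q := by
  simp [dl, dt]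

theorem dl_cont (v : ℝ × ℝ) : Continuous (dl v) := LinearMap.continuous_of_finiteDimensional _

theorem dt_uu (θ : ℝ) : dt (uu θ) (uu θ) = 1 := by
  simp only [dt, uu]
  nlinarith [Real.sin_sq_add_cos_sq θ]

theorem dt_nn (θ : ℝ) : dt (nn θ) (nn θ) = 1 := by
  simp only [dt, nn]
  nlinarith [Real.sin_sq_add_cos_sq θ]

theorem dt_nu (θ : ℝ) : dt (nn θ) (uu θ) = 0 := by
  simp only [dt, nn, uu]
  ring

/-- a small step from an interior point stays in the set -/
theorem int_step {K : Set (ℝ × ℝ)} {A : ℝ × ℝ} (hA : A ∈ interior K) (v : ℝ × ℝ) :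
    ∃ ε : ℝ, 0 < ε ∧ A + ε • v ∈ K := by
  have h1 : Filter.Tendsto (fun ε : ℝ => A + ε • v) (nhds 0) (nhds (A + (0 : ℝ) • v)) :=
    Continuous.tendsto (by fun_prop) _
  rw [zero_smul, add_zero] at h1
  have h2 := h1.eventually (mem_interior_iff_mem_nhds.1 hA)
  rcases Metric.eventually_nhds_iff.1 h2 with ⟨δ, hδ, h⟩
  refine ⟨δ / 2, by positivity, h ?_⟩
  rw [Real.dist_eq, sub_zero, abs_of_pos (by positivity)]
  linarith

/-- the exchange argument: a longer bottom chord contradicts maximality -/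
theorem key {K : Set (ℝ × ℝ)} (hc : Convex ℝ K) (f g : (ℝ × ℝ) →ₗ[ℝ] ℝ) {h s : ℝ} (hh : 0 < h)
    (hs : 0 ≤ s)
    (hmax : ∀ P ∈ K, ∀ Q ∈ K, ∀ P2 ∈ K, ∀ Q2 ∈ K, f P = f Q → f P2 = f Q2 →
      2 * (f P2 - f P) = h → g Q - g P ≤ s ∨ g Q2 - g P2 ≤ s)
    {U : ℝ × ℝ} (hU : U ∈ K) (hUm : ∀ q ∈ K, f U ≤ f q) (hTm : ∀ q ∈ K, f q ≤ f U + h)
    (hst : ∀ P ∈ K, ∀ Q ∈ K, P ≠ Q → ∃ q ∈ K, 2 * f q < f P + f Q)
    {B C P Q : ℝ × ℝ} (hB : B ∈ K) (hC : C ∈ K) (hP : P ∈ K) (hQ : Q ∈ K)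
    (hBC : f B = f C) (hPQ : f P = f Q) (hd : 2 * (f B - f P) = h) (hl : g C - g B = s) :
    g Q - g P ≤ s := by
  by_contra hgt
  push Not at hgt
  have hne : P ≠ Q := by
    rintro rfl
    linarith
  obtain ⟨q, hq, hq2⟩ := hst P hP Q hQ hne
  have h1 : f U < f P := by
    have := hUm q hq
    linarith
  set L := g Q - g P with hL
  have hL0 : 0 < L := lt_of_le_of_lt hs hgt
  set δ := (L - s) / (2 * L) with hδ
  have hδ0 : 0 < δ := by
    have : 0 < L - s := by linarith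
    positivity
  have hδL : δ * L = (L - s) / 2 := by
    rw [hδ]
    field_simp
  have hδ1 : δ ≤ 1 := by
    by_contra hcon
    push Not at hcon
    nlinarith
  have hB1 := hTm B hB
  set μ := δ * (2 * (f P - f U) / h) with hμ
  have hμ0 : 0 < μ := by
    have : 0 < f P - f U := by linarith
    positivity
  have hμ2 : 2 * (f P - f U) / h ≤ 1 := by
    rw [div_le_one hh]
    linarith
  have hμ1 : μ ≤ 1 := by
    have h3 : δ * (2 * (f P - f U) / h) ≤ δ * 1 := mul_le_mul_of_nonneg_left hμ2 hδ0.le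
    linarith
  have hμh : μ * h = 2 * δ * (f P - f U) := by
    rw [hμ]
    field_simp
  have comb : ∀ x ∈ K, ∀ y ∈ K, ∀ t : ℝ, 0 ≤ t → t ≤ 1 → (1 - t) • x + t • y ∈ K :=
    fun x hx y hy t h0 h1 => hc hx hy (by linarith) h0 (by ring)
  have ff : ∀ (F : (ℝ × ℝ) →ₗ[ℝ] ℝ) (x y : ℝ × ℝ) (t : ℝ),
      F ((1 - t) • x + t • y) = (1 - t) * F x + t * F y := by
    intro F x y t
    simp
  rcases hmax _ (comb P hP U hU δ hδ0.le hδ1) _ (comb Q hQ U hU δ hδ0.le hδ1)
    _ (comb B hB P hP μ hμ0.le hμ1) _ (comb C hC Q hQ μ hμ0.le hμ1)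
    (by rw [ff, ff, hPQ]) (by rw [ff, ff, hBC, hPQ])
    (by
      rw [ff, ff]
      have h4 : f B = f P + h / 2 := by linarith
      rw [h4]
      nlinarith) with h5 | h5
  · rw [ff, ff] at h5
    have h6 : (1 - δ) * g Q + δ * g U - ((1 - δ) * g P + δ * g U) = L - δ * L := by
      rw [hL]
      ring
    rw [h6, hδL] at h5
    linarith
  · rw [ff, ff] at h5
    have h6 : (1 - μ) * g C + μ * g Q - ((1 - μ) * g B + μ * g P) = s + μ * (L - s) := by
      rw [hL, ← hl]
      ring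
    rw [h6] at h5
    have : 0 < μ * (L - s) := mul_pos hμ0 (by linarith)
    linarith

/-- supporting unit normals at boundary points -/
theorem support {K : Set (ℝ × ℝ)} (hK : IsBody K) {A : ℝ × ℝ} (hA : A ∉ interior K) :
    ∃ z : ℝ × ℝ, dt z z = 1 ∧ ∀ q ∈ K, dt z (q - A) ≤ 0 := by
  obtain ⟨F, hF⟩ := geometric_hahn_banach_open_point hK.convex.interior isOpen_interior hA
  have hcl : ∀ q ∈ K, F q ≤ F A := by
    intro q hq
    have h1 : K ⊆ closure (interior K) := by
      have h2 := hK.convex.closure_interior_eq_closure_of_nonempty_interior hK.interior_nonempty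
      rw [h2]
      exact subset_closure
    have h3 : closure (interior K) ⊆ {x | F x ≤ F A} :=
      closure_minimal (fun x hx => (hF x hx).le) (isClosed_le F.continuous continuous_const)
    exact h3 (h1 hq)
  have hrep : ∀ q : ℝ × ℝ, F q = q.1 * F (1, 0) + q.2 * F (0, 1) := by
    intro q
    have h1 : q = q.1 • ((1 : ℝ), (0 : ℝ)) + q.2 • ((0 : ℝ), (1 : ℝ)) := by
      ext <;> simp
    conv_lhs => rw [h1]
    rw [map_add, map_smul, map_smul]
    simp
  set a := F (1, 0) with ha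
  set b := F (0, 1) with hb
  have hab : 0 < a * a + b * b := by
    by_contra hcon
    push Not at hcon
    have ha0 : a = 0 := by nlinarith [mul_self_nonneg a, mul_self_nonneg b]
    have hb0 : b = 0 := by nlinarith [mul_self_nonneg a, mul_self_nonneg b]
    obtain ⟨c, hc⟩ := hK.interior_nonempty
    have h1 := hF c hc
    rw [hrep c, hrep A, ha0, hb0] at h1
    simp at h1
  set r := Real.sqrt (a * a + b * b) with hr
  have hr0 : 0 < r := Real.sqrt_pos.2 hab
  have hrr : r * r = a * a + b * b := Real.mul_self_sqrt hab.le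
  refine ⟨(a / r, b / r), ?_, ?_⟩
  · simp only [dt]
    field_simp
    nlinarith
  · intro q hq
    have h1 := hcl q hq
    rw [hrep q, hrep A] at h1
    simp only [dt, Prod.fst_sub, Prod.snd_sub]
    have h2 : a / r * (q.1 - A.1) + b / r * (q.2 - A.2) =
        (q.1 * a + q.2 * b - (A.1 * a + A.2 * b)) / r := by
      field_simp
      ring
    rw [h2]
    exact div_nonpos_of_nonpos_of_nonneg (by linarith) hr0.le

theorem good_exists {K : Set (ℝ × ℝ)} (hK : SBody K) (θ : ℝ) :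
    ∃ z : Fin 10 → ℝ × ℝ, Good K θ z := by
  set f := dl (nn θ) with hf
  set g := dl (uu θ) with hg
  have fn : f (nn θ) = 1 := by rw [hf, dl_apply, dt_nn]
  have fu : f (uu θ) = 0 := by rw [hf, dl_apply, dt_nu]
  have gu : g (uu θ) = 1 := by rw [hg, dl_apply, dt_uu]
  have hc := hK.body.convex
  have hne : K.Nonempty := hK.body.interior_nonempty.mono interior_subset
  have fs : ∀ (x : ℝ × ℝ) (ε : ℝ), f (x + ε • uu θ) = f x := by
    intro x ε
    rw [map_add, map_smul, fu, smul_zero, add_zero]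
  have gs : ∀ (x : ℝ × ℝ) (ε : ℝ), g (x + ε • uu θ) = g x + ε := by
    intro x ε
    rw [map_add, map_smul, gu, smul_eq_mul, mul_one]
  have fs' : ∀ (x : ℝ × ℝ) (ε : ℝ), f (x + ε • -(uu θ)) = f x := by
    intro x ε
    rw [map_add, map_smul, map_neg, fu, neg_zero, smul_zero, add_zero]
  have gs' : ∀ (x : ℝ × ℝ) (ε : ℝ), g (x + ε • -(uu θ)) = g x - ε := by
    intro x ε
    rw [map_add, map_smul, map_neg, gu, smul_eq_mul]
    ring
  have fc : Continuous f := dl_cont _
  have gc : Continuous g := dl_cont _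
  obtain ⟨T, hT, hTm⟩ := hK.body.compact.exists_isMaxOn hne fc.continuousOn
  obtain ⟨U, hU, hUm⟩ := hK.body.compact.exists_isMinOn hne fc.continuousOn
  have hTm' : ∀ q ∈ K, f q ≤ f T := fun q hq => hTm hq
  have hUm' : ∀ q ∈ K, f U ≤ f q := fun q hq => hUm hq
  obtain ⟨c0, hc0⟩ := hK.body.interior_nonempty
  have hh : 0 < f T - f U := by
    obtain ⟨ε, hε, h1⟩ := int_step hc0 (nn θ)
    have h2 := hTm' _ h1
    have h3 := hUm' _ (interior_subset hc0)
    rw [map_add, map_smul, fn, smul_eq_mul] at h2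
    linarith
  have hTU : U ≠ T := by
    rintro rfl
    linarith
  -- strictness in both directions
  have hst : ∀ P ∈ K, ∀ Q ∈ K, P ≠ Q → ∃ q ∈ K, 2 * f q < f P + f Q := by
    intro P hP Q hQ hPQ
    obtain ⟨ε, hε, h1⟩ := int_step (hK.strict P hP Q hQ hPQ) (-(nn θ))
    refine ⟨_, h1, ?_⟩
    rw [map_add, map_smul, map_smul, map_add, map_neg, fn, smul_eq_mul, smul_eq_mul]
    linarith
  have hst' : ∀ P ∈ K, ∀ Q ∈ K, P ≠ Q → ∃ q ∈ K, 2 * (-f) q < (-f) P + (-f) Q := by
    intro P hP Q hQ hPQ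
    obtain ⟨ε, hε, h1⟩ := int_step (hK.strict P hP Q hQ hPQ) (nn θ)
    refine ⟨_, h1, ?_⟩
    rw [LinearMap.neg_apply, LinearMap.neg_apply, LinearMap.neg_apply, map_add, map_smul,
      map_smul, map_add, fn, smul_eq_mul, smul_eq_mul]
    linarith
  -- the compact set of quadruples
  set S : Set ((ℝ × ℝ) × (ℝ × ℝ) × (ℝ × ℝ) × (ℝ × ℝ)) :=
    (K ×ˢ K ×ˢ K ×ˢ K) ∩ {w | f w.1 = f w.2.2.2 ∧ f w.2.1 = f w.2.2.1 ∧
      g w.2.2.2 - g w.1 = g w.2.2.1 - g w.2.1 ∧ 0 ≤ g w.2.2.2 - g w.1 ∧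
      2 * (f w.2.1 - f w.1) = f T - f U} with hS
  have hScomp : IsCompact S := by
    refine (hK.body.compact.prod (hK.body.compact.prod
      (hK.body.compact.prod hK.body.compact))).inter_right ?_
    refine IsClosed.and (isClosed_eq (by fun_prop) (by fun_prop)) ?_
    refine IsClosed.and (isClosed_eq (by fun_prop) (by fun_prop)) ?_
    refine IsClosed.and (isClosed_eq (by fun_prop) (by fun_prop)) ?_
    refine IsClosed.and (isClosed_le (by fun_prop) (by fun_prop)) ?_
    exact isClosed_eq (by fun_prop) (by fun_prop)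
  -- an element of positive length
  set M := (1 / 2 : ℝ) • (U + T) with hM
  have hMi : M ∈ interior K := hK.strict U hU T hT hTU
  have hMK := interior_subset hMi
  have fM : f M = (f U + f T) / 2 := by
    rw [hM, map_smul, map_add, smul_eq_mul]
    ring
  have hUM : U ≠ M := by
    intro h
    rw [← h] at fM
    linarith
  have hTM : M ≠ T := by
    intro h
    rw [h] at fM
    linarith
  set A0 := (1 / 2 : ℝ) • (U + M) with hA0
  set B0 := (1 / 2 : ℝ) • (M + T) with hB0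
  have hA0i : A0 ∈ interior K := hK.strict U hU M hMK hUM
  have hB0i : B0 ∈ interior K := hK.strict M hMK T hT hTM
  have fA0 : f A0 = (f U + f M) / 2 := by
    rw [hA0, map_smul, map_add, smul_eq_mul]
    ring
  have fB0 : f B0 = (f M + f T) / 2 := by
    rw [hB0, map_smul, map_add, smul_eq_mul]
    ring
  have comb : ∀ x ∈ K, ∀ y ∈ K, ∀ t : ℝ, 0 ≤ t → t ≤ 1 → (1 - t) • x + t • y ∈ K :=
    fun x hx y hy t h0 h1 => hc hx hy (by linarith) h0 (by ring)
  have ff : ∀ (F : (ℝ × ℝ) →ₗ[ℝ] ℝ) (x y : ℝ × ℝ) (t : ℝ),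
      F ((1 - t) • x + t • y) = (1 - t) * F x + t * F y := by
    intro F x y t
    simp
  -- cutting a chord to a given length
  have cut : ∀ P ∈ K, ∀ Q ∈ K, f P = f Q → ∀ x : ℝ, 0 ≤ x → x ≤ g Q - g P →
      ∃ R ∈ K, f R = f P ∧ g R - g P = x := by
    intro P hP Q hQ hPQ x hx0 hx1
    rcases eq_or_lt_of_le (le_trans hx0 hx1) with h0 | h0
    · refine ⟨P, hP, rfl, ?_⟩
      linarith
    · refine ⟨_, comb P hP Q hQ (x / (g Q - g P)) (by positivity)
        (by rw [div_le_one h0]; exact hx1), ?_, ?_⟩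
      · rw [ff, hPQ]
        ring
      · rw [ff]
        have h1 : x / (g Q - g P) * (g Q - g P) = x := by
          field_simp
        linear_combination h1
  -- pairs of chords give elements of S
  have mkS : ∀ P ∈ K, ∀ Q ∈ K, ∀ P2 ∈ K, ∀ Q2 ∈ K, f P = f Q → f P2 = f Q2 →
      2 * (f P2 - f P) = f T - f U → ∀ x : ℝ, 0 ≤ x → x ≤ g Q - g P → x ≤ g Q2 - g P2 →
      ∃ w ∈ S, g w.2.2.2 - g w.1 = x := by
    intro P hP Q hQ P2 hP2 Q2 hQ2 h1 h2 h3 x hx0 hx1 hx2
    obtain ⟨R, hR, hR1, hR2⟩ := cut P hP Q hQ h1 x hx0 hx1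
    obtain ⟨R2, hR2K, hR21, hR22⟩ := cut P2 hP2 Q2 hQ2 h2 x hx0 hx2
    refine ⟨(P, P2, R2, R), ⟨⟨hP, hP2, hR2K, hR⟩, hR1.symm, hR21.symm, ?_, ?_, h3⟩, hR2⟩
    · show g R - g P = g R2 - g P2
      rw [hR2, hR22]
    · show 0 ≤ g R - g P
      rw [hR2]
      exact hx0
  obtain ⟨ε1, hε1, hA1⟩ := int_step hA0i (uu θ)
  obtain ⟨ε2, hε2, hB1⟩ := int_step hB0i (uu θ)
  have hA0K := interior_subset hA0i
  have hB0K := interior_subset hB0i
  obtain ⟨w0, hw0, hw0x⟩ := mkS A0 hA0K _ hA1 B0 hB0K _ hB1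
    (fs _ _).symm (fs _ _).symm
    (by rw [fA0, fB0]; ring) (min ε1 ε2) (by positivity)
    (by
      rw [gs]
      have := min_le_left ε1 ε2
      linarith)
    (by
      rw [gs]
      have := min_le_right ε1 ε2
      linarith)
  obtain ⟨w, hw, hwm⟩ := hScomp.exists_isMaxOn ⟨w0, hw0⟩
    (f := fun w => g w.2.2.2 - g w.1) (by fun_prop)
  have hwm' : ∀ v ∈ S, g v.2.2.2 - g v.1 ≤ g w.2.2.2 - g w.1 := fun v hv => hwm hv
  obtain ⟨⟨hA, hB, hC, hD⟩, e1, e2, e3, e4, e5⟩ := hw
  set A := w.1 with hAdef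
  set B := w.2.1 with hBdef
  set C := w.2.2.1 with hCdef
  set D := w.2.2.2 with hDdef
  set s := g D - g A with hs
  have hs0 : 0 < s := by
    have h1 := hwm' _ hw0
    rw [hw0x] at h1
    have : 0 < min ε1 ε2 := lt_min hε1 hε2
    linarith
  have hmax : ∀ P ∈ K, ∀ Q ∈ K, ∀ P2 ∈ K, ∀ Q2 ∈ K, f P = f Q → f P2 = f Q2 →
      2 * (f P2 - f P) = f T - f U → g Q - g P ≤ s ∨ g Q2 - g P2 ≤ s := by
    intro P hP Q hQ P2 hP2 Q2 hQ2 h1 h2 h3
    by_contra hcon
    push Not at hcon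
    obtain ⟨v, hv, hvx⟩ := mkS P hP Q hQ P2 hP2 Q2 hQ2 h1 h2 h3
      (min (g Q - g P) (g Q2 - g P2)) (le_min (by linarith) (by linarith))
      (min_le_left _ _) (min_le_right _ _)
    have h4 := hwm' v hv
    rw [hvx] at h4
    have h5 := lt_min hcon.1 hcon.2
    linarith
  have hmax' : ∀ P ∈ K, ∀ Q ∈ K, ∀ P2 ∈ K, ∀ Q2 ∈ K, (-f) P = (-f) Q → (-f) P2 = (-f) Q2 →
      2 * ((-f) P2 - (-f) P) = f T - f U → g Q - g P ≤ s ∨ g Q2 - g P2 ≤ s := by
    intro P hP Q hQ P2 hP2 Q2 hQ2 h1 h2 h3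
    simp only [LinearMap.neg_apply] at h1 h2 h3
    exact (hmax P2 hP2 Q2 hQ2 P hP Q hQ (by linarith) (by linarith) (by linarith)).symm
  -- longest chords
  have bot : ∀ P ∈ K, ∀ Q ∈ K, f P = f Q → f P = f A → g Q - g P ≤ s := by
    intro P hP Q hQ h1 h2
    refine key hc f g hh hs0.le hmax hU hUm' (fun q hq => ?_) hst hB hC hP hQ e2 h1 ?_ ?_
    · have := hTm' q hq
      linarith
    · rw [h2]
      exact e5
    · exact e3.symm
  have top : ∀ P ∈ K, ∀ Q ∈ K, f P = f Q → f P = f B → g Q - g P ≤ s := by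
    intro P hP Q hQ h1 h2
    refine key hc (-f) g hh hs0.le hmax' hT (fun q hq => ?_) (fun q hq => ?_) hst' hA hD hP hQ
      ?_ ?_ ?_ rfl
    · simp only [LinearMap.neg_apply]
      have := hTm' q hq
      linarith
    · simp only [LinearMap.neg_apply]
      have := hUm' q hq
      linarith
    · simp only [LinearMap.neg_apply]
      rw [e1]
    · simp only [LinearMap.neg_apply]
      rw [h1]
    · simp only [LinearMap.neg_apply]
      rw [h2]
      linarith
  -- the four points are boundary points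
  have nA : A ∉ interior K := by
    intro h
    obtain ⟨ε, hε, h1⟩ := int_step h (-(uu θ))
    have h2 := bot _ h1 D hD ((fs' _ _).trans e1) (fs' _ _)
    rw [gs'] at h2
    linarith
  have nD : D ∉ interior K := by
    intro h
    obtain ⟨ε, hε, h1⟩ := int_step h (uu θ)
    have h2 := bot A hA _ h1 (e1.trans (fs _ _).symm) rfl
    rw [gs] at h2
    linarith
  have nB : B ∉ interior K := by
    intro h
    obtain ⟨ε, hε, h1⟩ := int_step h (-(uu θ))
    have h2 := top _ h1 C hC ((fs' _ _).trans e2) (fs' _ _)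
    rw [gs'] at h2
    linarith
  have nC : C ∉ interior K := by
    intro h
    obtain ⟨ε, hε, h1⟩ := int_step h (uu θ)
    have h2 := top B hB _ h1 (e2.trans (fs _ _).symm) rfl
    rw [gs] at h2
    linarith
  obtain ⟨zA, uA, sA⟩ := support hK.body nA
  obtain ⟨zB, uB, sB⟩ := support hK.body nB
  obtain ⟨zC, uC, sC⟩ := support hK.body nC
  obtain ⟨zD, uD, sD⟩ := support hK.body nD
  -- a vector at level zero is a multiple of `uu θ`
  have expand : ∀ v z : ℝ × ℝ, f v = 0 → dt z v = g v * dt z (uu θ) := by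
    intro v z hv
    rw [hf, dl_apply] at hv
    rw [hg, dl_apply]
    simp only [dt, nn, uu] at hv ⊢
    have hsc := Real.sin_sq_add_cos_sq θ
    have h1 : v.1 = (Real.cos θ * v.1 + Real.sin θ * v.2) * Real.cos θ := by
      linear_combination (-Real.sin θ) * hv - v.1 * hsc
    have h2 : v.2 = (Real.cos θ * v.1 + Real.sin θ * v.2) * Real.sin θ := by
      linear_combination (Real.cos θ) * hv - v.2 * hsc
    calc z.1 * v.1 + z.2 * v.2
        = z.1 * ((Real.cos θ * v.1 + Real.sin θ * v.2) * Real.cos θ)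
          + z.2 * ((Real.cos θ * v.1 + Real.sin θ * v.2) * Real.sin θ) := by
          rw [← h1, ← h2]
      _ = _ := by ring
  have fDA : f (D - A) = 0 := by rw [map_sub, e1, sub_self]
  have gDA : g (D - A) = s := by rw [map_sub]
  have fCB : f (C - B) = 0 := by rw [map_sub, e2, sub_self]
  have gCB : g (C - B) = s := by rw [map_sub, ← e3]
  have fAD : f (A - D) = 0 := by rw [map_sub, e1, sub_self]
  have gAD : g (A - D) = -s := by rw [map_sub, hs]; ring
  have fBC : f (B - C) = 0 := by rw [map_sub, e2, sub_self]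
  have gBC : g (B - C) = -s := by rw [map_sub, e3]; ring
  refine ⟨![A, B, C, D, T, U, zA, zB, zC, zD], ?_⟩
  constructor
  · exact hA
  · exact hB
  · exact hC
  · exact hD
  · exact hT
  · exact hU
  · intro q hq
    have := hTm' q hq
    rwa [hf, dl_apply, dl_apply] at this
  · intro q hq
    have := hUm' q hq
    rwa [hf, dl_apply, dl_apply] at this
  · show dt (nn θ) (D - A) = 0
    rw [← dl_apply]
    exact fDA
  · show dt (nn θ) (C - B) = 0
    rw [← dl_apply]
    exact fCB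
  · show dt (uu θ) (D - A) = dt (uu θ) (C - B)
    rw [← dl_apply, ← dl_apply]
    exact gDA.trans gCB.symm
  · show 0 ≤ dt (uu θ) (D - A)
    rw [← dl_apply]
    exact hs0.le.trans_eq gDA.symm
  · show 2 * dt (nn θ) (B - A) = dt (nn θ) (T - U)
    rw [← dl_apply, ← dl_apply]
    show 2 * f (B - A) = f (T - U)
    rw [map_sub, map_sub]
    exact e5
  · exact uA
  · exact uB
  · exact uC
  · exact uD
  · exact sA
  · exact sB
  · exact sC
  · exact sD
  · show dt zA (uu θ) ≤ 0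
    have h1 := sA D hD
    rw [expand _ zA fDA, gDA] at h1
    by_contra hcon
    push Not at hcon
    have := mul_pos hs0 hcon
    linarith
  · show dt zB (uu θ) ≤ 0
    have h1 := sB C hC
    rw [expand _ zB fCB, gCB] at h1
    by_contra hcon
    push Not at hcon
    have := mul_pos hs0 hcon
    linarith
  · show 0 ≤ dt zC (uu θ)
    have h1 := sC B hB
    rw [expand _ zC fBC, gBC] at h1
    by_contra hcon
    push Not at hcon
    have := mul_pos hs0 (neg_pos.2 hcon)
    linarith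
  · show 0 ≤ dt zD (uu θ)
    have h1 := sD A hA
    rw [expand _ zD fAD, gAD] at h1
    by_contra hcon
    push Not at hcon
    have := mul_pos hs0 (neg_pos.2 hcon)
    linarith

end Pool.Agent.Helper21.PHU
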